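import Pool.Agent.TH3.IR.Window
import Pool.Agent.R873.SB.PGen
import Pool.Agent.R873.SB.PNum

/-!
# The Hilbert function of general fat points in all degrees, up to an error of lower order

Let `n ≥ 2`, `r ≥ 3 ^ n` and let `m`, `d` be arbitrary. The Hilbert function `H_{n,r,m}(d)` of
`R / I^(m)` for `r` general points of `ℙⁿ` satisfies
`min - r (m + n - 1) ^ (n - 1) / (2 (n - 2)!) ≤ H_{n,r,m}(d) ≤ min`, where
`min = min (binom (n + d) n) (r * binom (n + m - 1) n)` is the expected value, which is of order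
`m ^ n` in the only interval of degrees where the two values can be different,
`ρ m ≤ d < ρ (m + n - 1) + (n - 1)` with `ρ = r ^ (1 / n)`. More precisely the difference is at most
`(∏ ρ (m + j) - ∏ (ρ m + j)) / n!`, the products being over `0 ≤ j < n`. In particular
`H_{n,r,m}(⌊δ m⌋) / m ^ n` tends to `min (δ ^ n) r / n!` for every `δ ≥ 0`.
-/

set_option autoImplicit false

namespace Pool.Agent.Results.MP_b56c98_ag.EveryDegree

open MvPolynomial
open scoped LinearAlgebra.Projectivization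
open Pool.Agent.H350R3.MG

/-- The `m`-th symbolic power of the ideal of the points `P₁, …, P_r`. -/
noncomputable def symbolicPower {n r : ℕ} (m : ℕ) (P : Fin r → ℙ ℂ (Fin (n + 1) → ℂ)) :
    Ideal (MvPolynomial (Fin (n + 1)) ℂ) :=
  ⨅ i, primeIdeal (P i) ^ m

/-- The Hilbert function `dim R_d - dim J_d` of `R / J`. -/
noncomputable def hilbert {n : ℕ} (J : Ideal (MvPolynomial (Fin (n + 1)) ℂ)) (d : ℕ) : ℤ :=
  (Module.finrank ℂ (homogeneousSubmodule (Fin (n + 1)) ℂ d) : ℤ) -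
    Module.finrank ℂ (homogeneousSubmodule (Fin (n + 1)) ℂ d ⊓ Submodule.restrictScalars ℂ J :
      Submodule ℂ (MvPolynomial (Fin (n + 1)) ℂ))

/-- `h` is the value `H_{n,r,m}(d)` of the Hilbert function of `R / I^(m)` for `r` general points:
the value is `h` for all the `r`-tuples of points in a nonempty Zariski open set. -/
def IsGeneralHilbertValue (n r m d : ℕ) (h : ℤ) : Prop :=
  Generally (fun P : Fin r → ℙ ℂ (Fin (n + 1) → ℂ) => hilbert (symbolicPower m P) d = h)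

/-- The upper bound for the Hilbert function given in the question. -/
def expected (n r m d : ℕ) : ℕ := min ((n + d).choose n) (r * (n + m - 1).choose n)

theorem bounds (n r m d : ℕ) (hn : 2 ≤ n) (hr : 3 ^ n ≤ r) :
    ∃ h : ℕ, (∀ h' : ℤ, IsGeneralHilbertValue n r m d h' ↔ h' = h) ∧ h ≤ expected n r m d ∧
      (n.factorial : ℝ) * ((expected n r m d : ℝ) - h) ≤
        ∏ j ∈ Finset.range n, ((r : ℝ) ^ (1 / (n : ℝ)) * (m + j)) -
          ∏ j ∈ Finset.range n, ((r : ℝ) ^ (1 / (n : ℝ)) * m + j) ∧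
      2 * ((n - 2).factorial : ℝ) * ((expected n r m d : ℝ) - h) ≤
        r * ((m : ℝ) + n - 1) ^ (n - 1) ∧
      (h ≠ expected n r m d → (r : ℝ) ^ (1 / (n : ℝ)) * m ≤ d ∧
        (d : ℝ) < (r : ℝ) ^ (1 / (n : ℝ)) * ((m : ℝ) + n - 1) + ((n : ℝ) - 1)) := by
  have hr0 : 0 < r := lt_of_lt_of_le (by positivity) hr
  have hrR : (0 : ℝ) < r := by exact_mod_cast hr0
  have hn0 : (n : ℝ) ≠ 0 := by
    have : 0 < n := by omega
    exact_mod_cast this.ne'
  have hdim : Module.finrank ℂ (homogeneousSubmodule (Fin (n + 1)) ℂ d) = (d + n).choose n :=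
    TH3.IR.finrank_forms (by omega) d
  obtain ⟨ρ, hρ⟩ : ∃ ρ : ℝ, ρ = (r : ℝ) ^ (1 / (n : ℝ)) := ⟨_, rfl⟩
  have hρ1 : 1 ≤ ρ := by
    rw [hρ]
    exact Real.one_le_rpow (by exact_mod_cast hr0) (by positivity)
  have hρn : ρ ^ n = r := by
    rw [hρ, one_div]
    exact Real.rpow_inv_natCast_pow (Nat.cast_nonneg r) (by omega)
  rw [← hρ]
  have hm0 : (0 : ℝ) ≤ m := Nat.cast_nonneg m
  have hwin := TH3.IR.main_window hn hr (fun _ : Fin r => m)
  simp only [Finset.sum_const, Finset.card_univ, Fintype.card_fin, nsmul_eq_mul,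
    smul_eq_mul] at hwin
  have hlt : ∀ e : ℕ, (e : ℝ) < ρ * m → (r : ℝ) ^ (((n : ℝ) - 1) / n) * e < (r : ℝ) * m := by
    intro e he
    have h1 : (r : ℝ) = (r : ℝ) ^ (((n : ℝ) - 1) / n) * ρ := by
      rw [hρ, ← Real.rpow_add hrR]
      have : ((n : ℝ) - 1) / n + 1 / (n : ℝ) = 1 := by field_simp; ring
      rw [this, Real.rpow_one]
    have h2 : 0 < (r : ℝ) ^ (((n : ℝ) - 1) / n) := Real.rpow_pos_of_pos hrR _
    calc (r : ℝ) ^ (((n : ℝ) - 1) / n) * e < (r : ℝ) ^ (((n : ℝ) - 1) / n) * (ρ * m) :=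
          mul_lt_mul_of_pos_left he h2
      _ = (r : ℝ) ^ (((n : ℝ) - 1) / n) * ρ * m := by ring
      _ = (r : ℝ) * m := by rw [← h1]
  have hempty : ∀ e : ℕ, (e : ℝ) < ρ * m →
      Generally (fun P : Fin r → ℙ ℂ (Fin (n + 1) → ℂ) => R873.SB.pf e (fun _ => m) P = ⊥) := by
    intro e he
    obtain ⟨U, hU, hU', h⟩ := hwin
    exact ⟨U, hU, hU', fun P hP => ((h P hP e).1 (hlt e he)).1⟩
  obtain ⟨v, hv1, hv2, hv3, hv4, hv5⟩ := R873.SB.value (by omega : 1 ≤ n) (fun _ : Fin r => m) d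
  simp only [Finset.sum_const, Finset.card_univ, Fintype.card_fin, smul_eq_mul] at hv2
  obtain ⟨A, hA⟩ : ∃ A : ℕ, A = r * (m + n - 1).choose n := ⟨_, rfl⟩
  obtain ⟨N, hN⟩ : ∃ N : ℕ, N = (d + n).choose n := ⟨_, rfl⟩
  have hexp : expected n r m d = min N A := by
    unfold expected
    rw [hN, hA, Nat.add_comm n d, Nat.add_comm n m]
  rw [← hA, ← hN] at hv2
  rw [← hN] at hv3 hv4
  rw [hexp]
  have hgen : IsGeneralHilbertValue n r m d ((N - v : ℕ) : ℤ) := by
    obtain ⟨U, hU, hU', h⟩ := hv1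
    refine ⟨U, hU, hU', fun P hP => ?_⟩
    have h1 : Module.finrank ℂ ↥(R873.SB.pf d (fun _ : Fin r => m) P) = v := h P hP
    have h2 : R873.SB.pf d (fun _ : Fin r => m) P =
        (homogeneousSubmodule (Fin (n + 1)) ℂ d ⊓
          Submodule.restrictScalars ℂ (symbolicPower m P) :
          Submodule ℂ (MvPolynomial (Fin (n + 1)) ℂ)) := rfl
    rw [h2] at h1
    show hilbert (symbolicPower m P) d = ((N - v : ℕ) : ℤ)
    unfold hilbert
    rw [h1, hdim, ← hN, Nat.cast_sub hv3]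
  have huniq : ∀ h' : ℤ, IsGeneralHilbertValue n r m d h' ↔ h' = ((N - v : ℕ) : ℤ) := by
    intro h'
    constructor
    · intro h
      obtain ⟨P, hP, hPv⟩ := hv5 _ h
      have h2 : R873.SB.pf d (fun _ : Fin r => m) P =
          (homogeneousSubmodule (Fin (n + 1)) ℂ d ⊓
            Submodule.restrictScalars ℂ (symbolicPower m P) :
            Submodule ℂ (MvPolynomial (Fin (n + 1)) ℂ)) := rfl
      rw [h2] at hPv
      rw [← hP]
      unfold hilbert
      rw [hPv, hdim, ← hN, Nat.cast_sub hv3]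
    · rintro rfl
      exact hgen
  have hle : N - v ≤ min N A := le_min (Nat.sub_le _ _) (by omega)
  -- the value is the number of the forms below of the window
  have hbig : (d : ℝ) < ρ * m → v = 0 := by
    intro hd
    have := hv4 d le_rfl (hempty d hd)
    rw [← hN] at this
    omega
  have hAf : (n.factorial : ℝ) * (A : ℝ) = ∏ j ∈ Finset.range n, (ρ * ((m : ℝ) + j)) := by
    rw [Finset.prod_mul_distrib, Finset.prod_const, Finset.card_range, hρn,
      ← R873.SB.fact_choose' n m (by omega), hA]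
    push_cast
    ring
  have hP0 : (0 : ℝ) ≤ ∏ j ∈ Finset.range n, (ρ * ((m : ℝ) + j)) -
      ∏ j ∈ Finset.range n, (ρ * (m : ℝ) + j) := by
    rw [sub_nonneg]
    refine Finset.prod_le_prod (fun j _ => by positivity) fun j _ => ?_
    have hj : (0 : ℝ) ≤ j := Nat.cast_nonneg j
    nlinarith
  have hmain : (n.factorial : ℝ) * (((min N A : ℕ) : ℝ) - ((N - v : ℕ) : ℝ)) ≤
      ∏ j ∈ Finset.range n, (ρ * ((m : ℝ) + j)) - ∏ j ∈ Finset.range n, (ρ * (m : ℝ) + j) := by
    have hf : (0 : ℝ) < n.factorial := by exact_mod_cast Nat.factorial_pos n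
    rcases lt_or_ge (d : ℝ) (ρ * m) with hd | hd
    · rw [hbig hd, Nat.sub_zero]
      have h1 : ((min N A : ℕ) : ℝ) ≤ N := by exact_mod_cast min_le_left N A
      nlinarith
    · rcases Nat.eq_zero_or_pos m with hm | hm
      · have hA0 : A = 0 := by
          rw [hA, hm, Nat.choose_eq_zero_of_lt (by omega), mul_zero]
        have h1 : ((min N A : ℕ) : ℝ) ≤ 0 := by
          exact_mod_cast (min_le_right N A).trans hA0.le
        have h2 : (0 : ℝ) ≤ ((N - v : ℕ) : ℝ) := Nat.cast_nonneg _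
        nlinarith
      · have hmR : (1 : ℝ) ≤ m := by exact_mod_cast hm
        have hc : 0 < ⌈ρ * m⌉₊ := Nat.ceil_pos.2 (by positivity)
        obtain ⟨e, he⟩ : ∃ e, ⌈ρ * m⌉₊ = e + 1 := ⟨⌈ρ * m⌉₊ - 1, by omega⟩
        have h1 : (e : ℝ) < ρ * m := Nat.lt_ceil.1 (by omega)
        have h2 : ρ * m ≤ (e : ℝ) + 1 := by
          have := Nat.le_ceil (ρ * m)
          rw [he] at this
          push_cast at this
          exact this
        have h3 : e ≤ d := by
          have : (e : ℝ) ≤ d := by linarith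
          exact_mod_cast this
        have h4 := hv4 e h3 (hempty e h1)
        have h5 := R873.SB.prod_lower n e (ρ * m) (by positivity) h2
        have h6 : ((e + n).choose n : ℝ) ≤ ((N - v : ℕ) : ℝ) := by
          have : (e + n).choose n ≤ N - v := by omega
          exact_mod_cast this
        have h7 : ((min N A : ℕ) : ℝ) ≤ A := by exact_mod_cast min_le_right N A
        have h8 : (n.factorial : ℝ) * ((min N A : ℕ) : ℝ) ≤ (n.factorial : ℝ) * A :=
          mul_le_mul_of_nonneg_left h7 hf.le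
        have h9 : (n.factorial : ℝ) * ((e + n).choose n : ℝ) ≤
            (n.factorial : ℝ) * ((N - v : ℕ) : ℝ) := mul_le_mul_of_nonneg_left h6 hf.le
        rw [mul_sub]
        linarith
  refine ⟨N - v, huniq, hle, hmain, ?_, fun hne => ?_⟩
  · have h1 := R873.SB.prod_diff ρ m ((m : ℝ) + n - 1) hρ1 hm0 n (by linarith)
    rw [hρn] at h1
    obtain ⟨l, hl⟩ : ∃ l, n = l + 2 := ⟨n - 2, by omega⟩
    have hfac : (n.factorial : ℝ) = n * (n - 1) * ((n - 2).factorial : ℝ) := by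
      rw [hl, Nat.add_sub_cancel, Nat.factorial_succ, Nat.factorial_succ]
      push_cast
      ring
    have hn2 : (2 : ℝ) ≤ n := by exact_mod_cast hn
    have hpos : (0 : ℝ) < n * (n - 1) / 2 := by nlinarith
    have h2 := hmain.trans h1
    rw [hfac] at h2
    have h3 : (n * (n - 1) / 2) * (2 * ((n - 2).factorial : ℝ) *
        (((min N A : ℕ) : ℝ) - ((N - v : ℕ) : ℝ))) ≤
        (n * (n - 1) / 2) * (r * ((m : ℝ) + n - 1) ^ (n - 1)) := by
      linarith
    exact le_of_mul_le_mul_left h3 hpos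
  · by_contra hcon
    rw [not_and_or, not_le, not_lt] at hcon
    apply hne
    obtain ⟨U, hU, ⟨P0, hP0'⟩, h⟩ := hwin
    rcases hcon with hd | hd
    · rw [hbig hd, Nat.sub_zero]
      have h1 := ((h P0 hP0' d).1 (hlt d hd)).2
      rw [← hA, ← hN] at h1
      exact (min_eq_left h1).symm
    · rw [hρ] at hd
      obtain ⟨P, hP, hPv⟩ := hv5 _ ⟨U, hU, ⟨P0, hP0'⟩, fun P hP => (h P hP d).2 fun _ => hd⟩
      have h1 : R873.SB.pf d (fun _ : Fin r => m) P = TH3.IR.pforms d (fun _ : Fin r => m) P := rfl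
      rw [← h1, hPv, ← hA, ← hN] at hP
      rw [min_eq_right (by omega)]
      omega

open Filter in
theorem limit (n r : ℕ) (hn : 2 ≤ n) (hr : 3 ^ n ≤ r) (δ : ℝ) (hδ : 0 ≤ δ) (H : ℕ → ℤ)
    (hH : ∀ m : ℕ, IsGeneralHilbertValue n r m ⌊δ * m⌋₊ (H m)) :
    Tendsto (fun m : ℕ => (H m : ℝ) / (m : ℝ) ^ n) atTop
      (nhds (min (δ ^ n) r / n.factorial)) := by
  have hb := fun m : ℕ => bounds n r m ⌊δ * m⌋₊ hn hr
  choose h hu h2 h3 h4 h5 using hb
  have hHh : ∀ m, (H m : ℝ) = h m := by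
    intro m
    rw [(hu m _).1 (hH m)]
    exact Int.cast_natCast _
  have hf : (0 : ℝ) < n.factorial := by exact_mod_cast Nat.factorial_pos n
  have hfl : Tendsto (fun m : ℕ => (⌊δ * m⌋₊ : ℝ) / m) atTop (nhds δ) :=
    (tendsto_nat_floor_mul_div_atTop hδ).comp tendsto_natCast_atTop_atTop
  have hone : ∀ c : ℝ, Tendsto (fun m : ℕ => ((m : ℝ) + c) / m) atTop (nhds 1) := by
    intro c
    have h6 : Tendsto (fun m : ℕ => 1 + c / (m : ℝ)) atTop (nhds (1 + 0)) :=
      tendsto_const_nhds.add (tendsto_const_div_atTop_nhds_zero_nat c)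
    rw [add_zero] at h6
    refine h6.congr' ?_
    filter_upwards [eventually_gt_atTop 0] with m hm
    have hm' : (m : ℝ) ≠ 0 := by exact_mod_cast hm.ne'
    rw [add_div, div_self hm']
  have hA : Tendsto (fun m : ℕ => ∏ j ∈ Finset.range n, (((⌊δ * m⌋₊ : ℝ) + 1 + j) / m)) atTop
      (nhds (δ ^ n)) := by
    have h6 : ∀ j ∈ Finset.range n,
        Tendsto (fun m : ℕ => ((⌊δ * m⌋₊ : ℝ) + 1 + j) / m) atTop (nhds δ) := by
      intro j _
      have h7 := hfl.add (tendsto_const_div_atTop_nhds_zero_nat ((1 : ℝ) + j))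
      rw [add_zero] at h7
      refine h7.congr fun m => ?_
      rw [← add_div, add_assoc]
    have h7 := tendsto_finsetProd (Finset.range n) h6
    rwa [Finset.prod_const, Finset.card_range] at h7
  have hB : Tendsto (fun m : ℕ => ∏ j ∈ Finset.range n, (((m : ℝ) + j) / m)) atTop
      (nhds 1) := by
    have h7 := tendsto_finsetProd (Finset.range n) fun (j : ℕ) _ => hone j
    rwa [Finset.prod_const, one_pow] at h7
  have hE : Tendsto (fun m : ℕ => (expected n r m ⌊δ * m⌋₊ : ℝ) * (n.factorial / (m : ℝ) ^ n))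
      atTop (nhds (min (δ ^ n) r)) := by
    have h6 := hA.min (hB.const_mul (r : ℝ))
    rw [mul_one] at h6
    refine h6.congr fun m => ?_
    have h7 : (expected n r m ⌊δ * m⌋₊ : ℝ) =
        min (((⌊δ * m⌋₊ + n).choose n : ℕ) : ℝ) ((r : ℝ) * ((m + n - 1).choose n : ℕ)) := by
      unfold expected
      rw [Nat.cast_min, Nat.add_comm n m, Nat.add_comm n ⌊δ * m⌋₊]
      push_cast
      rfl
    have h8 : (0 : ℝ) ≤ n.factorial / (m : ℝ) ^ n := by positivity
    rw [h7, min_mul_of_nonneg _ _ h8]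
    congr 1
    · rw [Finset.prod_div_distrib, Finset.prod_const, Finset.card_range,
        ← R873.SB.fact_choose n ⌊δ * m⌋₊]
      ring
    · rw [Finset.prod_div_distrib, Finset.prod_const, Finset.card_range,
        ← R873.SB.fact_choose' n m (by omega)]
      ring
  have hD : Tendsto (fun m : ℕ => ((expected n r m ⌊δ * m⌋₊ : ℝ) - h m) *
      (n.factorial / (m : ℝ) ^ n)) atTop (nhds 0) := by
    have h6 : Tendsto (fun m : ℕ => (n.factorial : ℝ) * r *
        ((((m : ℝ) + ((n : ℝ) - 1)) / m) ^ (n - 1) * (1 / (m : ℝ)))) atTop (nhds 0) := by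
      have h7 := (((hone ((n : ℝ) - 1)).pow (n - 1)).mul
        (tendsto_const_div_atTop_nhds_zero_nat (1 : ℝ))).const_mul ((n.factorial : ℝ) * r)
      rwa [mul_zero, mul_zero] at h7
    refine squeeze_zero' ?_ ?_ h6
    · filter_upwards with m
      have h7 : (h m : ℝ) ≤ expected n r m ⌊δ * m⌋₊ := by exact_mod_cast h2 m
      have h8 : (0 : ℝ) ≤ n.factorial / (m : ℝ) ^ n := by positivity
      exact mul_nonneg (by linarith) h8
    · filter_upwards [eventually_gt_atTop 0] with m hm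
      have hm' : (0 : ℝ) < m := by exact_mod_cast hm
      have h7 : (h m : ℝ) ≤ expected n r m ⌊δ * m⌋₊ := by exact_mod_cast h2 m
      have h8 : (1 : ℝ) ≤ ((n - 2).factorial : ℝ) := by
        exact_mod_cast Nat.factorial_pos (n - 2)
      have h9 : (expected n r m ⌊δ * m⌋₊ : ℝ) - h m ≤ r * ((m : ℝ) + n - 1) ^ (n - 1) := by
        have h10 := h4 m
        nlinarith
      have h10 : (0 : ℝ) ≤ n.factorial / (m : ℝ) ^ n := by positivity
      refine (mul_le_mul_of_nonneg_right h9 h10).trans (le_of_eq ?_)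
      obtain ⟨l, rfl⟩ : ∃ l, n = l + 1 := ⟨n - 1, by omega⟩
      rw [Nat.add_sub_cancel, div_pow, pow_succ]
      have e : (m : ℝ) + ((l + 1 : ℕ) : ℝ) - 1 = (m : ℝ) + (((l + 1 : ℕ) : ℝ) - 1) := by ring
      rw [e]
      field_simp
  have h6 := (hE.sub hD).div_const (n.factorial : ℝ)
  rw [sub_zero] at h6
  refine h6.congr fun m => ?_
  rw [hHh]
  field_simp
  ring

/-- Let `n ≥ 2` and `r ≥ 3 ^ n`. For all `m` and `d` the Hilbert function `h = H_{n,r,m}(d)` of `r`
general points of multiplicity `m` of `ℙⁿ` satisfies `h ≤ min (binom (n + d) n)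
(r * binom (n + m - 1) n)`, and the difference is at most
`(∏ ρ (m + j) - ∏ (ρ m + j)) / n!`, `ρ = r ^ (1 / n)`, `0 ≤ j < n`, and at most
`r (m + n - 1) ^ (n - 1) / (2 (n - 2)!)`; it is `0` unless
`ρ m ≤ d < ρ (m + n - 1) + (n - 1)`. Moreover `H_{n,r,m}(⌊δ m⌋) / m ^ n` tends to
`min (δ ^ n) r / n!` for `m → ∞`, for every `δ ≥ 0`. -/
theorem result (n r : ℕ) (hn : 2 ≤ n) (hr : 3 ^ n ≤ r) :
    (∀ m d : ℕ, ∃ h : ℕ, (∀ h' : ℤ, IsGeneralHilbertValue n r m d h' ↔ h' = h) ∧
      h ≤ expected n r m d ∧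
      (n.factorial : ℝ) * ((expected n r m d : ℝ) - h) ≤
        ∏ j ∈ Finset.range n, ((r : ℝ) ^ (1 / (n : ℝ)) * (m + j)) -
          ∏ j ∈ Finset.range n, ((r : ℝ) ^ (1 / (n : ℝ)) * m + j) ∧
      2 * ((n - 2).factorial : ℝ) * ((expected n r m d : ℝ) - h) ≤
        r * ((m : ℝ) + n - 1) ^ (n - 1) ∧
      (h ≠ expected n r m d → (r : ℝ) ^ (1 / (n : ℝ)) * m ≤ d ∧
        (d : ℝ) < (r : ℝ) ^ (1 / (n : ℝ)) * ((m : ℝ) + n - 1) + ((n : ℝ) - 1))) ∧
    ∀ δ : ℝ, 0 ≤ δ → ∀ H : ℕ → ℤ, (∀ m : ℕ, IsGeneralHilbertValue n r m ⌊δ * m⌋₊ (H m)) →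
      Filter.Tendsto (fun m : ℕ => (H m : ℝ) / (m : ℝ) ^ n) Filter.atTop
        (nhds (min (δ ^ n) r / n.factorial)) :=
  ⟨fun m d => bounds n r m d hn hr, fun δ hδ H hH => limit n r hn hr δ hδ H hH⟩

end Pool.Agent.Results.MP_b56c98_ag.EveryDegree
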